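import Pool.Agent.NDR.StmtsR

/-!
Squad NDR (MP_b48657_ag), row RAI: raising one threshold.
-/

set_option autoImplicit false

namespace Pool.Agent.NDR.H45

open Finset Pool.Agent.NDR

section

variable {τ : Type} [Fintype τ] {L : Type} [Field L]

theorem prz_int (l m : τ → ℤ) : pr l m = ∑ i, l i * m i := by
  unfold pr
  simp

theorem prz_sub (l m a : τ → ℤ) : pr l (m - a) = pr l m - pr l a := by
  simp only [prz_int, Pi.sub_apply, mul_sub, Finset.sum_sub_distrib]

theorem sum_zero_of_apply (A : Finset (τ → ℤ)) (c : (τ → ℤ) → L) (t : τ → L) (u : τ)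
    (x : (τ → ℤ) →₀ L) (m : τ → ℤ) (h0 : x m = 0)
    (h1 : ∀ a ∈ A, x (m - a) = 0) : opB A c t u x m = 0 := by
  rw [opB_apply, h0, mul_zero, add_zero]
  refine Finset.sum_eq_zero fun a ha => ?_
  rw [h1 a ha, mul_zero]

/-- one step -/
theorem step (A : Finset (τ → ℤ)) (c : (τ → ℤ) → L)
    (t : τ → L) (I P : Finset τ) (X : Set (τ → ℤ)) (l : τ → ℤ) (n : ℤ)
    (hPI : P ⊆ I) (ht : ∀ i ∈ P, t i = 0) (hA : ∀ a ∈ A, ∀ i ∈ P, 0 ≤ a i)
    (hX : ∀ m ∈ X, ∀ a ∈ A, m + a ∈ X) (hl : ∀ v, v ∉ I → l v = 0)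
    (hlA : ∀ a ∈ A, 0 ≤ pr l a)
    (hs : (n : L) + ∑ v, ((l v : ℤ) : L) * t v ≠ 0)
    (T : (τ → ℤ) →₀ L) (h : τ → (τ → ℤ) →₀ L)
    (hT : T = ∑ v ∈ I, opB A c t v (h v)) (hTn : ∀ m, pr l m = n → T m = 0)
    (hsup : ∀ v ∈ I, ∀ m ∈ (h v).support, m ∈ X ∧ m ∈ Fil P v ∧ n ≤ pr l m) :
    ∃ h' : τ → (τ → ℤ) →₀ L, T = ∑ v ∈ I, opB A c t v (h' v) ∧
      ∀ v ∈ I, ∀ m ∈ (h' v).support, m ∈ X ∧ m ∈ Fil P v ∧ n + 1 ≤ pr l m := by
  classical
  obtain ⟨s, hsdef⟩ : ∃ s : L, s = (n : L) + ∑ v, ((l v : ℤ) : L) * t v := ⟨_, rfl⟩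
  rw [← hsdef] at hs
  obtain ⟨g, hg⟩ : ∃ g : τ → (τ → ℤ) →₀ L, ∀ v, g v = (h v).filter (fun m => pr l m = n) :=
    ⟨_, fun v => rfl⟩
  have hg0 : ∀ v m, pr l m ≠ n → g v m = 0 := by
    intro v m hm
    rw [hg]
    exact Finsupp.filter_apply_neg (fun m => pr l m = n) (h v) hm
  have hg1 : ∀ v m, pr l m = n → g v m = h v m := by
    intro v m hm
    rw [hg]
    exact Finsupp.filter_apply_pos (fun m => pr l m = n) (h v) hm
  have hgsup : ∀ v m, g v m ≠ 0 → m ∈ (h v).support := by
    intro v m hm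
    by_cases h1 : pr l m = n
    · rw [hg1 v m h1] at hm
      exact Finsupp.mem_support_iff.2 hm
    · exact absurd (hg0 v m h1) hm
  have hlow : ∀ v ∈ I, ∀ m, pr l m < n → h v m = 0 := by
    intro v hv m hm
    by_contra hne
    have := (hsup v hv m (Finsupp.mem_support_iff.2 hne)).2.2
    omega
  obtain ⟨y, hy⟩ : ∃ y : τ → τ → (τ → ℤ) →₀ L, ∀ v u, y v u =
      s⁻¹ • (((l u : ℤ) : L) • g v - ((l v : ℤ) : L) • g u) := ⟨_, fun v u => rfl⟩
  have hya : ∀ u v, y u v = - y v u := by
    intro u v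
    rw [hy, hy, ← smul_neg, neg_sub]
  have hy0 : ∀ v, y v v = 0 := by
    intro v
    rw [hy, sub_self, smul_zero]
  have hopy : ∀ u v m, opB A c t u (y v u) m =
      s⁻¹ * (((l u : ℤ) : L) * opB A c t u (g v) m - ((l v : ℤ) : L) * opB A c t u (g u) m) := by
    intro u v m
    rw [hy, opB_smul, opB_sub, opB_smul, opB_smul]
    simp only [Finsupp.smul_apply, Finsupp.sub_apply, smul_eq_mul]
  -- values on low levels
  have hlev : ∀ w u m, pr l m < n → opB A c t u (g w) m = 0 := by
    intro w u m hm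
    refine sum_zero_of_apply A c t u _ m (hg0 w m (by omega)) fun a ha => hg0 w _ ?_
    rw [prz_sub]
    have := hlA a ha
    omega
  have hI1 : ∀ z : τ → L, ∑ u ∈ I, ((l u : ℤ) : L) * z u = ∑ u, ((l u : ℤ) : L) * z u := by
    intro z
    refine Finset.sum_subset (Finset.subset_univ I) fun v _ hv => ?_
    rw [hl v hv, Int.cast_zero, zero_mul]
  have hprc : ∀ a : τ → ℤ, ∑ u, ((l u : ℤ) : L) * ((a u : ℤ) : L) = ((pr l a : ℤ) : L) := by
    intro a
    rw [prz_int]
    push_cast
    rfl
  have hfirst : ∀ v m, pr l m = n →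
      ∑ u ∈ I, ((l u : ℤ) : L) * opB A c t u (g v) m = s * g v m := by
    intro v m hm
    have e1 : ∀ u, ((l u : ℤ) : L) * opB A c t u (g v) m =
        (∑ a ∈ A, ((l u : ℤ) : L) * (c a * ((a u : ℤ) : L) * g v (m - a))) +
          (((l u : ℤ) : L) * ((m u : ℤ) : L) + ((l u : ℤ) : L) * t u) * g v m := by
      intro u
      rw [opB_apply, mul_add, Finset.mul_sum]
      ring
    rw [Finset.sum_congr rfl fun u _ => e1 u, Finset.sum_add_distrib, Finset.sum_comm,
      ← Finset.sum_mul, Finset.sum_add_distrib, hI1, hI1, hprc, hm, ← hsdef]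
    have e2 : ∑ a ∈ A, ∑ u ∈ I, ((l u : ℤ) : L) * (c a * ((a u : ℤ) : L) * g v (m - a)) = 0 := by
      refine Finset.sum_eq_zero fun a ha => ?_
      have e3 : ∀ u, ((l u : ℤ) : L) * (c a * ((a u : ℤ) : L) * g v (m - a)) =
          ((l u : ℤ) : L) * ((a u : ℤ) : L) * (c a * g v (m - a)) := fun u => by ring
      rw [Finset.sum_congr rfl fun u _ => e3 u, ← Finset.sum_mul, hI1, hprc]
      by_cases h0 : pr l a = 0
      · rw [h0, Int.cast_zero, zero_mul]
      · rw [hg0 v (m - a) (by rw [prz_sub]; omega), mul_zero, mul_zero]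
    rw [e2, zero_add]
  have hsecond : ∀ m, pr l m = n → ∑ u ∈ I, opB A c t u (g u) m = 0 := by
    intro m hm
    have e1 : ∀ u ∈ I, opB A c t u (g u) m = opB A c t u (h u) m := by
      intro u hu
      have e2 : opB A c t u (h u - g u) m = 0 := by
        refine sum_zero_of_apply A c t u _ m ?_ fun a ha => ?_
        · rw [Finsupp.sub_apply, hg1 u m hm, sub_self]
        · rw [Finsupp.sub_apply]
          have h1 := hlA a ha
          rcases lt_or_eq_of_le h1 with h2 | h2
          · have h3 : pr l (m - a) < n := by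
              rw [prz_sub]
              omega
            rw [hlow u hu _ h3, hg0 u _ h3.ne, sub_self]
          · rw [hg1 u _ (by rw [prz_sub]; omega), sub_self]
      rw [opB_sub, Finsupp.sub_apply, sub_eq_zero] at e2
      exact e2.symm
    rw [Finset.sum_congr rfl e1, ← Finsupp.finsetSum_apply, ← hT]
    exact hTn m hm
  refine ⟨fun v => h v - ∑ u ∈ I, opB A c t u (y v u), ?_, ?_⟩
  · simp only [opB_sub]
    rw [Finset.sum_sub_distrib, opB_anti A c t I y hya hy0, sub_zero]
    exact hT
  · intro v hv m hm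
    have hne : (h v) m - ∑ u ∈ I, opB A c t u (y v u) m ≠ 0 := by
      have h1 := Finsupp.mem_support_iff.1 hm
      rwa [Finsupp.sub_apply, Finsupp.finsetSum_apply] at h1
    have hXF : m ∈ X ∧ m ∈ Fil P v := by
      by_cases h0 : (h v) m = 0
      · rw [h0, zero_sub, neg_ne_zero] at hne
        obtain ⟨u, hu, hu0⟩ := Finset.exists_ne_zero_of_sum_ne_zero hne
        have huv : u ≠ v := by
          rintro rfl
          rw [hy0, opB_zero] at hu0
          exact hu0 rfl
        rw [hopy] at hu0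
        have h2 : opB A c t u (g v) m ≠ 0 ∨ opB A c t u (g u) m ≠ 0 := by
          by_contra h3
          push Not at h3
          rw [h3.1, h3.2, mul_zero, mul_zero, sub_zero, mul_zero] at hu0
          exact hu0 rfl
        rcases h2 with h2 | h2
        · rw [opB_apply] at h2
          by_cases h3 : g v m = 0
          · rw [h3, mul_zero, add_zero] at h2
            obtain ⟨a, ha, h4⟩ := Finset.exists_ne_zero_of_sum_ne_zero h2
            have h5 := hsup v hv _ (hgsup v _ (right_ne_zero_of_mul h4))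
            have h6 : m - a + a = m := by abel
            refine ⟨by rw [← h6]; exact hX _ h5.1 a ha, fun i hi => ?_⟩
            have h7 := h5.2.1 i hi
            have h8 := hA a ha i hi
            rw [Pi.sub_apply] at h7
            refine ⟨by linarith [h7.1], fun hiv => ?_⟩
            have h9 := h7.2 hiv
            linarith
          · have h5 := hsup v hv _ (hgsup v _ h3)
            exact ⟨h5.1, h5.2.1⟩
        · rw [opB_apply] at h2
          by_cases h3 : ((((m u : ℤ) : L) + t u) * g u m) = 0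
          · rw [h3, add_zero] at h2
            obtain ⟨a, ha, h4⟩ := Finset.exists_ne_zero_of_sum_ne_zero h2
            have h5 := hsup u hu _ (hgsup u _ (right_ne_zero_of_mul h4))
            have hau : a u ≠ 0 := by
              intro h6
              rw [h6, Int.cast_zero, mul_zero, zero_mul] at h4
              exact h4 rfl
            have h6 : m - a + a = m := by abel
            refine ⟨by rw [← h6]; exact hX _ h5.1 a ha, fun i hi => ?_⟩
            have h7 := h5.2.1 i hi
            have h8 := hA a ha i hi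
            rw [Pi.sub_apply] at h7
            refine ⟨by linarith [h7.1], fun _ => ?_⟩
            by_cases hiu : i = u
            · subst hiu
              have h10 := h7.1
              omega
            · have h9 := h7.2 hiu
              linarith
          · have h4 := right_ne_zero_of_mul h3
            have h4' := left_ne_zero_of_mul h3
            have h5 := hsup u hu _ (hgsup u _ h4)
            refine ⟨h5.1, fun i hi => ?_⟩
            have h7 := h5.2.1 i hi
            refine ⟨h7.1, fun _ => ?_⟩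
            by_cases hiu : i = u
            · subst hiu
              rw [ht i hi, add_zero] at h4'
              have h8 : m i ≠ 0 := fun h9 => h4' (by rw [h9, Int.cast_zero])
              have h10 := h7.1
              omega
            · exact h7.2 hiu
      · have h5 := hsup v hv _ (Finsupp.mem_support_iff.2 h0)
        exact ⟨h5.1, h5.2.1⟩
    refine ⟨hXF.1, hXF.2, ?_⟩
    by_contra hlt
    have hle : pr l m ≤ n := by omega
    apply hne
    rcases lt_or_eq_of_le hle with h1 | h1
    · rw [hlow v hv m h1, zero_sub, neg_eq_zero]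
      refine Finset.sum_eq_zero fun u _ => ?_
      rw [hopy, hlev v u m h1, hlev u u m h1, mul_zero, mul_zero, sub_zero, mul_zero]
    · rw [Finset.sum_congr rfl fun u _ => hopy u v m, ← Finset.mul_sum, Finset.sum_sub_distrib,
        hfirst v m h1, ← Finset.mul_sum, hsecond m h1, mul_zero, sub_zero, hg1 v m h1,
        inv_mul_cancel_left₀ hs, sub_self]

end

/-- ROW RAI -/
theorem rai : RaiStmt := by
  classical
  intro τ _ L _ A c t I P X l θ hPI ht hA hX hl hlA hs T h hT hTθ hsup
  have key : ∀ k : ℕ, ∀ h : τ → (τ → ℤ) →₀ L, T = ∑ v ∈ I, opB A c t v (h v) →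
      (∀ v ∈ I, ∀ m ∈ (h v).support, m ∈ X ∧ m ∈ Fil P v ∧ θ - k ≤ pr l m) →
      ∃ h' : τ → (τ → ℤ) →₀ L, T = ∑ v ∈ I, opB A c t v (h' v) ∧
        ∀ v ∈ I, ∀ m ∈ (h' v).support, m ∈ X ∧ m ∈ Fil P v ∧ θ ≤ pr l m := by
    intro k
    induction k with
    | zero =>
      intro h h1 h2
      refine ⟨h, h1, fun v hv m hm => ?_⟩
      have h3 := h2 v hv m hm
      rw [Nat.cast_zero, sub_zero] at h3
      exact h3
    | succ k ih =>
      intro h h1 h2
      obtain ⟨h', h3, h4⟩ := step A c t I P X l (θ - ((k + 1 : ℕ) : ℤ)) hPI ht hA hX hl hlA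
        (hs _ (by push_cast; omega)) T h h1 (by
          intro m hm
          by_contra hne
          have h5 := hTθ m (Finsupp.mem_support_iff.2 hne)
          rw [hm] at h5
          push_cast at h5
          omega) h2
      refine ih h' h3 fun v hv m hm => ?_
      have h5 := h4 v hv m hm
      refine ⟨h5.1, h5.2.1, ?_⟩
      have h6 := h5.2.2
      push_cast at h6
      omega
  obtain ⟨k, hk⟩ : ∃ k : ℕ, ∀ m ∈ I.biUnion (fun v => (h v).support), θ - k ≤ pr l m := by
    refine ⟨∑ m ∈ I.biUnion (fun v => (h v).support), (θ - pr l m).toNat, fun m hm => ?_⟩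
    have h1 : (θ - pr l m).toNat ≤
        ∑ m ∈ I.biUnion (fun v => (h v).support), (θ - pr l m).toNat :=
      Finset.single_le_sum (f := fun m => (θ - pr l m).toNat) (fun _ _ => Nat.zero_le _) hm
    omega
  refine key k h hT fun v hv m hm => ?_
  have h1 := hsup v hv m hm
  exact ⟨h1.1, h1.2, hk m (Finset.mem_biUnion.2 ⟨v, hv, hm⟩)⟩

end Pool.Agent.NDR.H45
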